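import Mathlib
import Pool.Agent.H755R3.Final

/-! The number of conjugacy classes of a finite solvable group which is a product of two
subgroups of coprime orders. -/

set_option autoImplicit false

namespace Pool.Agent.Results.MP_2bb03e_al.SolvableCase

/-- If a finite solvable group `G` is the product of subgroups `A`, `B` of coprime orders, neither
assumed normal, then `k(G) ≤ k(A) k(B)`. -/
theorem result : ∀ (G : Type) [Group G] [Finite G] [Group.IsSolvable G] (A B : Subgroup G),
    Nat.Coprime (Nat.card A) (Nat.card B) →
    (∀ g : G, ∃ a ∈ A, ∃ b ∈ B, g = a * b) →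
    Nat.card (ConjClasses G) ≤ Nat.card (ConjClasses A) * Nat.card (ConjClasses B) := by
  intro G _ _ _ A B hco hAB
  exact Pool.Agent.H755R3.classes_le A B hco hAB

end Pool.Agent.Results.MP_2bb03e_al.SolvableCase
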